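import Pool.Agent.Lib.MP_adc574_ag_OA.G1
import Pool.Agent.Lib.MP_adc574_ag_OA.G2
import Pool.Agent.Lib.MP_adc574_ag_OA.G3
import Pool.Agent.Lib.MP_adc574_ag_OA.G5

/-! # The larger sieve in a ring of integers (sets of integers of bounded house) -/

set_option autoImplicit false

namespace MPadcOA

open NumberField

private theorem LS1_le_house {K : Type} [Field K] [NumberField K] (a : K) (φ : K →+* ℂ) : ‖φ a‖ ≤ house a := by
  rw [house_eq_sup']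
  have h := Finset.le_sup' (s := Finset.univ) (f := fun ψ : K →+* ℂ => ‖ψ a‖₊) (Finset.mem_univ φ)
  exact_mod_cast h

theorem finite_house (K : Type) [Field K] [NumberField K] (X : ℝ) : {t : 𝓞 K | house (t : K) ≤ X}.Finite := by
  have h := NumberField.Embeddings.finite_of_norm_le K ℂ X
  refine Set.Finite.of_finite_image (f := fun t : 𝓞 K => (t : K)) (h.subset ?_)
    (fun a _ b _ hab => RingOfIntegers.ext hab)
  rintro _ ⟨t, ht, rfl⟩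
  exact ⟨RingOfIntegers.isIntegral_coe t, fun φ => (LS1_le_house _ φ).trans ht⟩

private theorem LS1_house_one (K : Type) [Field K] [NumberField K] : house (1 : K) = 1 := by
  have h := house_intCast (K := K) 1
  rw [Int.cast_one] at h
  rw [h]
  simp

private theorem LS1_field (l A x y m : ℝ) (hx : x ≠ 0) (hy : y ≠ 0) (hA : A ≠ 0) (hm : m ≠ 0) (w : ℝ) :
    l * (w * (x * y)) / (A * x * (m * y)) = l / (A * m) * w := by
  field_simp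

/-- Proof. As in `thmBKpow` (G7.lean) with `b = 1`. -/
theorem ls_one (m : ℕ) (C κ₀ : ℝ) (hκ₀ : 0 < κ₀) (hκ₀1 : κ₀ ≤ 1) : ∃ A κ : ℝ, 1 ≤ A ∧ 0 < κ ∧ κ ≤ 1 / 2 ∧
    ∀ (K : Type) [Field K] [NumberField K], Module.finrank ℚ K = m → ∀ (H : ℝ) (y : ℕ), 2 ≤ H → A ≤ y →
      Real.log H ^ A ≤ y →
        ∀ Z : ∀ 𝔭 : Ideal (𝓞 K), Set (𝓞 K ⧸ 𝔭),
          (∀ 𝔭 : Ideal (𝓞 K), 𝔭.IsMaximal → Ideal.absNorm 𝔭 ≤ y → ((Z 𝔭).ncard : ℝ) ≤ C * (y : ℝ) ^ (1 - κ₀)) →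
          ({t : 𝓞 K | house (t : K) ≤ H ∧
            (y : ℝ) ^ (1 - κ) < nK K (fun 𝔭 => Ideal.Quotient.mk 𝔭 t ∈ Z 𝔭) y}.ncard : ℝ) ≤ (y : ℝ) ^ (1 - κ) := by
  classical
  by_cases hm : 1 ≤ m
  swap
  · refine ⟨1, 1 / 2, le_rfl, by norm_num, le_rfl, fun K _ _ hK => ?_⟩
    have : 0 < Module.finrank ℚ K := Module.finrank_pos
    omega
  have hm0 : (0 : ℝ) < m := by exact_mod_cast hm
  set κ : ℝ := κ₀ / 4 with hκ
  have hκ4 : κ₀ = 4 * κ := by rw [hκ]; ring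
  have hκ0 : 0 < κ := by rw [hκ]; positivity
  have hκle : κ ≤ 1 / 4 := by rw [hκ]; linarith
  have hl2 : 0 < Real.log 2 := Real.log_pos (by norm_num)
  have hl4 : 0 < Real.log 4 := Real.log_pos (by norm_num)
  set A₁ : ℝ := max C 1 with hA₁
  have hA₁0 : 0 < A₁ := lt_of_lt_of_le one_pos (le_max_right _ _)
  set c₃ : ℝ := Real.log 2 / (A₁ * m) with hc₃
  have hc₃0 : 0 < c₃ := by positivity
  set Θ : ℝ := m * Real.log 4 with hΘ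
  have hΘ0 : 0 < Θ := by positivity
  obtain ⟨A', hA'1, hA'⟩ := choose_C κ ((3 * m + Θ) / c₃) hκ0
  refine ⟨A', κ, hA'1, hκ0, by linarith, ?_⟩
  intro K _ _ hKm H y hH hy hlogy Z hZ
  obtain ⟨hya, hz2⟩ := hA' H y hH hy hlogy
  have hy1 : (1 : ℝ) ≤ y := hA'1.trans hy
  have hy0 : (0 : ℝ) < y := by linarith
  have hlH : Real.log 2 ≤ Real.log H := Real.log_le_log (by norm_num) hH
  have hyk0 : 0 < (y : ℝ) ^ κ := Real.rpow_pos_of_pos hy0 _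
  have hsq : (y : ℝ) ^ κ * (y : ℝ) ^ κ = (y : ℝ) ^ (2 * κ) := by
    rw [← Real.rpow_add hy0]
    congr 1
    ring
  have hH1 : 1 ≤ H := by linarith
  -- the exceptional set
  set Tset : Set (𝓞 K) := {t : 𝓞 K | house (t : K) ≤ H ∧
      (y : ℝ) ^ (1 - κ) < nK K (fun 𝔭 => Ideal.Quotient.mk 𝔭 t ∈ Z 𝔭) y} with hTset
  have hfin : Tset.Finite := (finite_house K H).subset fun t ht => ht.1
  set T₀ : Finset (𝓞 K) := hfin.toFinset with hT₀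
  have hT₀mem : ∀ t, t ∈ T₀ ↔ t ∈ Tset := fun t => hfin.mem_toFinset
  have hinj : Function.Injective (fun t : 𝓞 K => (t : K)) := fun a b hab => RingOfIntegers.ext hab
  set T : Finset K := Finset.image (fun t : 𝓞 K => (t : K)) T₀ with hT
  have hTcard : T.card = T₀.card := Finset.card_image_of_injective _ hinj
  have hex : ∀ t : K, ∃ a : 𝓞 K, t ∈ T → (a : K) = t ∧ a ∈ T₀ := by
    intro t
    by_cases ht : t ∈ T
    · obtain ⟨a, ha, hat⟩ := Finset.mem_image.1 ht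
      exact ⟨a, fun _ => ⟨hat, ha⟩⟩
    · exact ⟨0, fun h => absurd h ht⟩
  choose a ha using hex
  -- the primes
  have hPfin := primesK_finite (K := K) (fun _ => True) y
  set P : Finset (Ideal (𝓞 K)) := hPfin.toFinset with hP
  have hPmem : ∀ 𝔭, 𝔭 ∈ P ↔ 𝔭.IsMaximal ∧ Ideal.absNorm 𝔭 ≤ y := by
    intro 𝔭
    rw [hP, hPfin.mem_toFinset]
    exact ⟨fun h => ⟨h.1, h.2.1⟩, fun h => ⟨h.1, h.2, trivial⟩⟩
  have hPN : ∀ 𝔭 ∈ P, 2 ≤ Ideal.absNorm 𝔭 := fun 𝔭 h𝔭 => (absNorm_facts 𝔭 ((hPmem 𝔭).1 h𝔭).1).2.2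
  set M : Ideal (𝓞 K) → ℝ := fun _ => A₁ * (y : ℝ) ^ (1 - 4 * κ) with hM
  have hMpos : ∀ 𝔭 ∈ P, 0 < M 𝔭 := fun 𝔭 _ => mul_pos hA₁0 (Real.rpow_pos_of_pos hy0 _)
  set S : Ideal (𝓞 K) → Finset K := fun 𝔭 => T.filter fun t => Ideal.Quotient.mk 𝔭 (a t) ∈ Z 𝔭 with hS
  have hsieve := larger_sieveM T a (fun _ => 1) H hH1
    (fun t ht => by
      obtain ⟨h1, h2⟩ := ha t ht
      refine ⟨one_ne_zero, ?_, ?_, ?_⟩
      · rw [h1]
        simp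
      · exact ((hT₀mem _).1 h2).1
      · have e : ((1 : 𝓞 K) : K) = 1 := by simp
        rw [e, LS1_house_one]
        exact hH1)
    P (fun 𝔭 h𝔭 => ((hPmem 𝔭).1 h𝔭).1)
    M hMpos S (fun 𝔭 _ => Finset.filter_subset _ _) (fun 𝔭 t => Ideal.Quotient.mk 𝔭 (a t)) Z
    (fun 𝔭 h𝔭 => by
      have h1 := hZ 𝔭 ((hPmem 𝔭).1 h𝔭).1 ((hPmem 𝔭).1 h𝔭).2
      rw [hκ4] at h1
      exact h1.trans (mul_le_mul_of_nonneg_right (le_max_left _ _) (Real.rpow_nonneg hy0.le _)))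
    (fun 𝔭 _ t ht => (Finset.mem_filter.1 ht).2)
    (fun 𝔭 _ t _ t' _ h => by
      rw [mul_one, mul_one]
      exact (Ideal.Quotient.eq).1 h)
  have hPcard : (P.card : ℝ) ≤ m * y := by
    have h1 := nK_eq (K := K) (fun _ => True) y
    have h2 := nK_le (K := K) (fun _ => True) y
    rw [h1, hKm] at h2
    exact_mod_cast h2
  have hΘP : ∑ 𝔭 ∈ P, Real.log ((Ideal.absNorm 𝔭 : ℕ) : ℝ) ≤ Θ * y := by
    have h1 := thetaU (K := K) y P fun 𝔭 h𝔭 => ⟨((hPmem 𝔭).1 h𝔭).1, ((hPmem 𝔭).1 h𝔭).2⟩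
    rw [hKm] at h1
    exact h1
  have hMle : ∀ 𝔭 ∈ P, M 𝔭 ≤ A₁ * (y : ℝ) ^ (1 - 4 * κ) := fun 𝔭 _ => le_rfl
  have hbound := counts_bound T P (fun 𝔭 => ((Ideal.absNorm 𝔭 : ℕ) : ℝ)) M
    (fun 𝔭 h𝔭 => by exact_mod_cast hPN 𝔭 h𝔭) hMpos S (fun 𝔭 _ => Finset.filter_subset _ _)
    (m * Real.log (2 * H ^ 2)) ((y : ℝ) ^ (1 - κ)) (m * y) (Θ * y) (A₁ * (y : ℝ) ^ (1 - 4 * κ))
    (by positivity) (by positivity) (by positivity) (by rw [← hKm]; exact hsieve) (by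
      intro t ht
      obtain ⟨h1, h2⟩ := ha t ht
      have h3 := ((hT₀mem _).1 h2).2
      have h4 : nK K (fun 𝔭 => Ideal.Quotient.mk 𝔭 (a t) ∈ Z 𝔭) y ≤ (P.filter (fun 𝔭 => t ∈ S 𝔭)).card := by
        rw [nK_eq]
        refine Finset.card_le_card ?_
        intro 𝔭 h𝔭
        have h9 := (Set.Finite.mem_toFinset _).1 h𝔭
        exact Finset.mem_filter.2 ⟨(hPmem 𝔭).2 ⟨h9.1, h9.2.1⟩, Finset.mem_filter.2 ⟨ht, h9.2.2⟩⟩
      have h5 : (nK K (fun 𝔭 => Ideal.Quotient.mk 𝔭 (a t) ∈ Z 𝔭) y : ℝ) ≤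
          (P.filter (fun 𝔭 => t ∈ S 𝔭)).card := by exact_mod_cast h4
      linarith) hPcard hΘP hMle
  -- the final inequality
  have hlogH : Real.log (2 * H ^ 2) ≤ 3 * Real.log H := by
    rw [Real.log_mul (by norm_num) (by positivity), Real.log_pow]
    push_cast
    linarith
  have hmain : Real.log 2 * ((y : ℝ) ^ (1 - κ)) ^ 2 / (A₁ * (y : ℝ) ^ (1 - 4 * κ) * (m * y)) =
      c₃ * (y : ℝ) ^ (2 * κ) := by
    have h1 : ((y : ℝ) ^ (1 - κ)) ^ 2 = (y : ℝ) ^ (2 * κ) * ((y : ℝ) ^ (1 - 4 * κ) * y) := by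
      have e1 : ((y : ℝ) ^ (1 - κ)) ^ 2 = (y : ℝ) ^ ((1 - κ) * 2) := by
        rw [Real.rpow_mul hy0.le]
        norm_num
      have e2 : (y : ℝ) ^ (1 - 4 * κ) * y = (y : ℝ) ^ (1 - 4 * κ + 1) := by
        rw [Real.rpow_add hy0, Real.rpow_one]
      rw [e1, e2, ← Real.rpow_add hy0]
      congr 1
      ring
    have h2 : 0 < (y : ℝ) ^ (1 - 4 * κ) := Real.rpow_pos_of_pos hy0 _
    rw [h1, hc₃]
    exact LS1_field _ _ _ _ _ h2.ne' hy0.ne' hA₁0.ne' hm0.ne' _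
  rw [hmain] at hbound
  have hkey : Θ * (y : ℝ) ^ κ ≤ c₃ * (y : ℝ) ^ (2 * κ) - m * Real.log (2 * H ^ 2) := by
    have h1 : 3 * m + Θ ≤ (y : ℝ) ^ κ * c₃ := (div_le_iff₀ hc₃0).1 hya
    have h2 : (3 * m + Θ) * (y : ℝ) ^ κ ≤ c₃ * (y : ℝ) ^ (2 * κ) := by
      have h3 := mul_le_mul_of_nonneg_right h1 hyk0.le
      have h4 : (y : ℝ) ^ κ * c₃ * (y : ℝ) ^ κ = c₃ * (y : ℝ) ^ (2 * κ) := by
        rw [← hsq]
        ring
      rw [h4] at h3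
      exact h3
    have h3 : (m : ℝ) * Real.log (2 * H ^ 2) ≤ m * (3 * (y : ℝ) ^ κ) :=
      mul_le_mul_of_nonneg_left (hlogH.trans (by linarith)) hm0.le
    linarith
  have hT1 : (T.card : ℝ) * (Θ * (y : ℝ) ^ κ) ≤ Θ * y :=
    (mul_le_mul_of_nonneg_left hkey (Nat.cast_nonneg _)).trans hbound
  have hT2 : (T.card : ℝ) * (y : ℝ) ^ κ ≤ y := by
    have h1 : Θ * ((T.card : ℝ) * (y : ℝ) ^ κ) ≤ Θ * y := by
      have : Θ * ((T.card : ℝ) * (y : ℝ) ^ κ) = (T.card : ℝ) * (Θ * (y : ℝ) ^ κ) := by ring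
      rw [this]
      exact hT1
    exact le_of_mul_le_mul_left h1 hΘ0
  have hT3 : (y : ℝ) = (y : ℝ) ^ (1 - κ) * (y : ℝ) ^ κ := by
    rw [← Real.rpow_add hy0]
    simp
  have hT4 : (T.card : ℝ) ≤ (y : ℝ) ^ (1 - κ) := by
    refine le_of_mul_le_mul_right ?_ hyk0
    rw [← hT3]
    exact hT2
  have hcard : Tset.ncard = T.card := by rw [hTcard, hT₀, Set.ncard_eq_toFinset_card _ hfin]
  rw [hcard]
  exact hT4

end MPadcOA
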