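import Mathlib

/-! # Large fibres -/

set_option autoImplicit false

namespace MPadcOA

theorem fibre_card {R : Type*} [Finite R] (r : ℕ) (Z : Set (Fin (r + 1) → R)) (b : ℝ) :
    ({c : Fin r → R | b < ({t : R | (Fin.cons t c : Fin (r + 1) → R) ∈ Z}.ncard : ℝ)}.ncard : ℝ) * b ≤ Z.ncard := by
  classical
  have : Fintype R := Fintype.ofFinite R
  set F : (Fin r → R) → Finset (Fin (r + 1) → R) := fun c =>
    (Finset.univ.filter fun z : Fin (r + 1) → R => z ∈ Z).filter fun z => Fin.tail z = c with hF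
  have h1 : ∀ c, ({t : R | (Fin.cons t c : Fin (r + 1) → R) ∈ Z}.ncard) = (F c).card := by
    intro c
    have e1 : ((F c : Finset (Fin (r + 1) → R)) : Set (Fin (r + 1) → R)) =
        (fun t : R => (Fin.cons t c : Fin (r + 1) → R)) '' {t : R | (Fin.cons t c : Fin (r + 1) → R) ∈ Z} := by
      ext z
      rw [hF, Finset.mem_coe, Finset.mem_filter, Finset.mem_filter]
      constructor
      · rintro ⟨⟨-, h⟩, h'⟩
        have e2 : (Fin.cons (z 0) c : Fin (r + 1) → R) = z := by
          rw [← h']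
          exact Fin.cons_self_tail z
        exact ⟨z 0, by rw [Set.mem_ofPred_eq, e2]; exact h, e2⟩
      · rintro ⟨t, ht, rfl⟩
        exact ⟨⟨Finset.mem_univ _, ht⟩, Fin.tail_cons _ _⟩
    rw [← Set.ncard_coe_finset, e1, Set.ncard_image_of_injective]
    intro t t' h
    exact (Fin.cons_inj.1 h).1
  set A : Finset (Fin r → R) :=
    Finset.univ.filter fun c => b < ({t : R | (Fin.cons t c : Fin (r + 1) → R) ∈ Z}.ncard : ℝ) with hA
  have h2 : ({c : Fin r → R | b < ({t : R | (Fin.cons t c : Fin (r + 1) → R) ∈ Z}.ncard : ℝ)}) = (A : Set _) := by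
    ext c
    rw [hA, Finset.mem_coe, Finset.mem_filter]
    exact ⟨fun h => ⟨Finset.mem_univ _, h⟩, fun h => h.2⟩
  have h3 : (Z.ncard : ℝ) = ∑ c : Fin r → R, ((F c).card : ℝ) := by
    have e1 : Z = ((Finset.univ.filter fun z : Fin (r + 1) → R => z ∈ Z : Finset _) : Set _) := by
      ext z
      simp
    have e2 : Z.ncard = (Finset.univ.filter fun z : Fin (r + 1) → R => z ∈ Z).card := by
      conv_lhs => rw [e1]
      exact Set.ncard_coe_finset _
    rw [e2, Finset.card_eq_sum_card_fiberwise (f := fun z => Fin.tail z) (t := Finset.univ)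
      (fun _ _ => Finset.mem_coe.2 (Finset.mem_univ _))]
    push_cast
    rfl
  rw [h2, Set.ncard_coe_finset, h3, ← nsmul_eq_mul, ← Finset.sum_const]
  refine (Finset.sum_le_sum fun c hc => ?_).trans
    (Finset.sum_le_sum_of_subset_of_nonneg (Finset.subset_univ A) fun c _ _ => Nat.cast_nonneg _)
  rw [← h1 c]
  exact (Finset.mem_filter.1 hc).2.le

end MPadcOA
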