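import Pool.Agent.Lib.MP_adc574_ag_LS.L1
import Pool.Agent.Lib.MP_adc574_ag_LS.L2

/-! # The larger sieve in several variables, with the coordinates in a finite set `T` of integers of bounded house -/

set_option autoImplicit false

namespace MPadcOA

open NumberField

private theorem LS3_cons {R S : Type*} {r : ℕ} (f : R → S) (c : Fin (r + 1) → R) :
    (fun i => f (c i)) = (Fin.cons (f (c 0)) (fun i => f (Fin.tail c i)) : Fin (r + 1) → S) := by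
  funext i
  refine Fin.cases ?_ (fun j => ?_) i
  · rfl
  · rfl

theorem ls_abs (m r : ℕ) : ∀ C κ₀ : ℝ, 0 < κ₀ → κ₀ ≤ 1 → ∃ A κ : ℝ, 1 ≤ A ∧ 0 < κ ∧ κ ≤ 1 / 2 ∧
    ∀ (K : Type) [Field K] [NumberField K], Module.finrank ℚ K = m → ∀ (H : ℝ) (y : ℕ), 2 ≤ H → A ≤ y →
      Real.log H ^ A ≤ y → ∀ T : Finset (𝓞 K), (∀ t ∈ T, house (t : K) ≤ H) →
        ∀ Z : ∀ 𝔭 : Ideal (𝓞 K), Set (Fin (r + 1) → 𝓞 K ⧸ 𝔭),
          (∀ 𝔭 : Ideal (𝓞 K), 𝔭.IsMaximal → Ideal.absNorm 𝔭 ≤ y →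
            ((Z 𝔭).ncard : ℝ) ≤ C * (Ideal.absNorm 𝔭 : ℝ) ^ ((r : ℝ) + 1 - κ₀)) →
          ({c : Fin (r + 1) → 𝓞 K | (∀ i, c i ∈ T) ∧
            (y : ℝ) ^ (1 - κ) < nK K (fun 𝔭 => (fun i => Ideal.Quotient.mk 𝔭 (c i)) ∈ Z 𝔭) y}.ncard : ℝ) ≤
              (y : ℝ) ^ (1 - κ) * (T.card : ℝ) ^ r := by
  induction r with
  | zero =>
    intro C κ₀ hκ₀ hκ₀1
    obtain ⟨A, κ, hA, hκ, hκ1, h⟩ := ls_one m (max C 0) κ₀ hκ₀ hκ₀1
    refine ⟨A, κ, hA, hκ, hκ1, ?_⟩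
    intro K _ _ hK H y hH hy hlog B hBH Z hZ
    have hy1 : (1 : ℝ) ≤ y := hA.trans hy
    have h1 := h K hK H y hH hy hlog (fun 𝔭 => {t | (fun _ : Fin 1 => t) ∈ Z 𝔭}) (by
      intro 𝔭 h𝔭 hN
      obtain ⟨hfin, hcard, h2N⟩ := absNorm_facts 𝔭 h𝔭
      have e1 : ({t : 𝓞 K ⧸ 𝔭 | (fun _ : Fin 1 => t) ∈ Z 𝔭}.ncard) ≤ (Z 𝔭).ncard :=
        Set.ncard_le_ncard_of_injOn (fun t => fun _ => t) (fun t ht => ht)
          (fun a _ b _ hab => congrFun hab 0) (Set.toFinite _)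
      have e2 : ({t : 𝓞 K ⧸ 𝔭 | (fun _ : Fin 1 => t) ∈ Z 𝔭}.ncard : ℝ) ≤ (Z 𝔭).ncard := by exact_mod_cast e1
      refine e2.trans ((hZ 𝔭 h𝔭 hN).trans ?_)
      have hN1 : (1 : ℝ) ≤ Ideal.absNorm 𝔭 := by
        have : 1 ≤ Ideal.absNorm 𝔭 := by omega
        exact_mod_cast this
      have hNy : (Ideal.absNorm 𝔭 : ℝ) ≤ y := by exact_mod_cast hN
      have e3 : (((0 : ℕ) : ℝ) + 1 - κ₀) = 1 - κ₀ := by push_cast; ring
      rw [e3]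
      have e4 : (Ideal.absNorm 𝔭 : ℝ) ^ (1 - κ₀) ≤ (y : ℝ) ^ (1 - κ₀) :=
        Real.rpow_le_rpow (by linarith) hNy (by linarith)
      calc C * (Ideal.absNorm 𝔭 : ℝ) ^ (1 - κ₀) ≤ max C 0 * (Ideal.absNorm 𝔭 : ℝ) ^ (1 - κ₀) :=
            mul_le_mul_of_nonneg_right (le_max_left _ _) (Real.rpow_nonneg (by linarith) _)
        _ ≤ max C 0 * (y : ℝ) ^ (1 - κ₀) := mul_le_mul_of_nonneg_left e4 (le_max_right _ _))
    rw [pow_zero, mul_one]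
    refine le_trans ?_ h1
    have e5 : ({c : Fin (0 + 1) → 𝓞 K | (∀ i, c i ∈ B) ∧
            (y : ℝ) ^ (1 - κ) < nK K (fun 𝔭 => (fun i => Ideal.Quotient.mk 𝔭 (c i)) ∈ Z 𝔭) y}.ncard) ≤
        ({t : 𝓞 K | house (t : K) ≤ H ∧
          (y : ℝ) ^ (1 - κ) < nK K (fun 𝔭 => Ideal.Quotient.mk 𝔭 t ∈ {t | (fun _ : Fin 1 => t) ∈ Z 𝔭}) y}.ncard) := by
      refine Set.ncard_le_ncard_of_injOn (fun c => c 0) ?_ ?_ ((finite_house K H).subset fun t ht => ht.1)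
      · rintro c ⟨hc1, hc2⟩
        refine ⟨hBH _ (hc1 0), ?_⟩
        have e6 : ∀ 𝔭 : Ideal (𝓞 K), (fun i : Fin (0 + 1) => Ideal.Quotient.mk 𝔭 (c i)) =
            (fun _ : Fin 1 => Ideal.Quotient.mk 𝔭 (c 0)) := by
          intro 𝔭
          funext i
          have : i = 0 := Fin.ext (by omega)
          rw [this]
        simp only [e6] at hc2
        exact hc2
      · intro a _ b _ hab
        funext i
        have : i = 0 := Fin.ext (by omega)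
        rw [this]
        exact hab
    exact_mod_cast e5
  | succ r ih =>
    intro C κ₀ hκ₀ hκ₀1
    obtain ⟨A₁, κ₁, hA₁, hκ₁, hκ₁1, h₁⟩ := ih C (κ₀ / 2) (by linarith) (by linarith)
    obtain ⟨A₂, κ₂, hA₂, hκ₂, hκ₂1, h₂⟩ := ls_one m 1 (κ₀ / 2) (by linarith) (by linarith)
    set κ : ℝ := min κ₁ κ₂ / 2 with hκd
    have hκ : 0 < κ := by
      have : 0 < min κ₁ κ₂ := lt_min hκ₁ hκ₂
      linarith
    have hκκ₁ : 2 * κ ≤ κ₁ := by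
      have := min_le_left κ₁ κ₂
      linarith
    have hκκ₂ : 2 * κ ≤ κ₂ := by
      have := min_le_right κ₁ κ₂
      linarith
    refine ⟨max (max A₁ A₂) ((2 : ℝ) ^ (1 / κ)), κ, hA₁.trans ((le_max_left _ _).trans (le_max_left _ _)), hκ,
      by linarith, ?_⟩
    intro K _ _ hK H y hH hy hlog B hBH Z hZ
    have hyA₁ : A₁ ≤ y := ((le_max_left _ _).trans (le_max_left _ _)).trans hy
    have hyA₂ : A₂ ≤ y := ((le_max_right _ _).trans (le_max_left _ _)).trans hy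
    have hy1 : (1 : ℝ) ≤ y := hA₁.trans hyA₁
    have hy0 : (0 : ℝ) < y := by linarith
    have hlogA : ∀ a : ℝ, 1 ≤ a → a ≤ max (max A₁ A₂) ((2 : ℝ) ^ (1 / κ)) → Real.log H ^ a ≤ y := by
      intro a ha haA
      have hl0 : 0 ≤ Real.log H := Real.log_nonneg (by linarith)
      rcases le_or_gt (Real.log H) 1 with h | h
      · exact (Real.rpow_le_one hl0 h (by linarith)).trans hy1
      · exact (Real.rpow_le_rpow_of_exponent_le h.le haA).trans hlog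
    have hlog₁ := hlogA A₁ hA₁ ((le_max_left _ _).trans (le_max_left _ _))
    have hlog₂ := hlogA A₂ hA₂ ((le_max_right _ _).trans (le_max_left _ _))
    have hyκ : 2 ≤ (y : ℝ) ^ κ := by
      have e1 : (2 : ℝ) ^ (1 / κ) ≤ y := (le_max_right _ _).trans hy
      have e2 : ((2 : ℝ) ^ (1 / κ)) ^ κ ≤ (y : ℝ) ^ κ := Real.rpow_le_rpow (by positivity) e1 hκ.le
      rw [← Real.rpow_mul (by norm_num), one_div_mul_cancel hκ.ne', Real.rpow_one] at e2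
      exact e2
    have hsum : (y : ℝ) ^ (1 - κ₁) + (y : ℝ) ^ (1 - κ₂) ≤ (y : ℝ) ^ (1 - κ) := by
      have e1 : (y : ℝ) ^ (1 - κ₁) ≤ (y : ℝ) ^ (1 - 2 * κ) := Real.rpow_le_rpow_of_exponent_le hy1 (by linarith)
      have e2 : (y : ℝ) ^ (1 - κ₂) ≤ (y : ℝ) ^ (1 - 2 * κ) := Real.rpow_le_rpow_of_exponent_le hy1 (by linarith)
      have e3 : (y : ℝ) ^ (1 - κ) = (y : ℝ) ^ κ * (y : ℝ) ^ (1 - 2 * κ) := by
        rw [← Real.rpow_add hy0]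
        congr 1
        ring
      have e4 : 0 ≤ (y : ℝ) ^ (1 - 2 * κ) := Real.rpow_nonneg hy0.le _
      rw [e3]
      nlinarith
    classical
    -- the classes with a large fibre
    let Z' : ∀ 𝔭 : Ideal (𝓞 K), Set (Fin (r + 1) → 𝓞 K ⧸ 𝔭) := fun 𝔭 =>
      {c | (Ideal.absNorm 𝔭 : ℝ) ^ (1 - κ₀ / 2) <
        ({t : 𝓞 K ⧸ 𝔭 | (Fin.cons t c : Fin (r + 1 + 1) → 𝓞 K ⧸ 𝔭) ∈ Z 𝔭}.ncard : ℝ)}
    have hZ' : ∀ 𝔭 : Ideal (𝓞 K), 𝔭.IsMaximal → Ideal.absNorm 𝔭 ≤ y →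
        ((Z' 𝔭).ncard : ℝ) ≤ C * (Ideal.absNorm 𝔭 : ℝ) ^ ((r : ℝ) + 1 - κ₀ / 2) := by
      intro 𝔭 h𝔭 hN
      obtain ⟨hfin, hcard, h2N⟩ := absNorm_facts 𝔭 h𝔭
      have hN0 : (0 : ℝ) < Ideal.absNorm 𝔭 := by
        have : 0 < Ideal.absNorm 𝔭 := by omega
        exact_mod_cast this
      have e1 := fibre_card (r + 1) (Z 𝔭) ((Ideal.absNorm 𝔭 : ℝ) ^ (1 - κ₀ / 2))
      have e2 := e1.trans (hZ 𝔭 h𝔭 hN)
      have e3 : (Ideal.absNorm 𝔭 : ℝ) ^ (((r + 1 : ℕ) : ℝ) + 1 - κ₀) =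
          (Ideal.absNorm 𝔭 : ℝ) ^ ((r : ℝ) + 1 - κ₀ / 2) * (Ideal.absNorm 𝔭 : ℝ) ^ (1 - κ₀ / 2) := by
        rw [← Real.rpow_add hN0]
        congr 1
        push_cast
        ring
      rw [e3, ← mul_assoc] at e2
      exact le_of_mul_le_mul_right e2 (Real.rpow_pos_of_pos hN0 _)
    have hbad₁ := h₁ K hK H y hH hyA₁ hlog₁ B hBH Z' hZ'
    -- the fibres
    let Zc : (Fin (r + 1) → 𝓞 K) → ∀ 𝔭 : Ideal (𝓞 K), Set (𝓞 K ⧸ 𝔭) := fun c 𝔭 =>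
      {t | (fun i => Ideal.Quotient.mk 𝔭 (c i)) ∉ Z' 𝔭 ∧
        (Fin.cons t (fun i => Ideal.Quotient.mk 𝔭 (c i)) : Fin (r + 1 + 1) → 𝓞 K ⧸ 𝔭) ∈ Z 𝔭}
    have hZc : ∀ c : Fin (r + 1) → 𝓞 K, ∀ 𝔭 : Ideal (𝓞 K), 𝔭.IsMaximal → Ideal.absNorm 𝔭 ≤ y →
        ((Zc c 𝔭).ncard : ℝ) ≤ 1 * (y : ℝ) ^ (1 - κ₀ / 2) := by
      intro c 𝔭 h𝔭 hN
      obtain ⟨hfin, hcard, h2N⟩ := absNorm_facts 𝔭 h𝔭
      have hNy : (Ideal.absNorm 𝔭 : ℝ) ≤ y := by exact_mod_cast hN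
      have e4 : (Ideal.absNorm 𝔭 : ℝ) ^ (1 - κ₀ / 2) ≤ (y : ℝ) ^ (1 - κ₀ / 2) :=
        Real.rpow_le_rpow (Nat.cast_nonneg _) hNy (by linarith)
      rw [one_mul]
      by_cases hc : (fun i => Ideal.Quotient.mk 𝔭 (c i)) ∈ Z' 𝔭
      · have e : Zc c 𝔭 = ∅ := by
          rw [Set.eq_empty_iff_forall_notMem]
          intro t ht
          exact ht.1 hc
        rw [e, Set.ncard_empty, Nat.cast_zero]
        exact Real.rpow_nonneg hy0.le _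
      · have e1 : ({t : 𝓞 K ⧸ 𝔭 | (Fin.cons t (fun i => Ideal.Quotient.mk 𝔭 (c i)) :
            Fin (r + 1 + 1) → 𝓞 K ⧸ 𝔭) ∈ Z 𝔭}.ncard : ℝ) ≤ (Ideal.absNorm 𝔭 : ℝ) ^ (1 - κ₀ / 2) := not_lt.1 hc
        have e2 : (Zc c 𝔭).ncard ≤ {t : 𝓞 K ⧸ 𝔭 | (Fin.cons t (fun i => Ideal.Quotient.mk 𝔭 (c i)) :
            Fin (r + 1 + 1) → 𝓞 K ⧸ 𝔭) ∈ Z 𝔭}.ncard := Set.ncard_le_ncard (fun t ht => ht.2) (Set.toFinite _)
        have e3 : ((Zc c 𝔭).ncard : ℝ) ≤ {t : 𝓞 K ⧸ 𝔭 | (Fin.cons t (fun i => Ideal.Quotient.mk 𝔭 (c i)) :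
            Fin (r + 1 + 1) → 𝓞 K ⧸ 𝔭) ∈ Z 𝔭}.ncard := by exact_mod_cast e2
        exact e3.trans (e1.trans e4)
    have hbad₂ := fun c => h₂ K hK H y hH hyA₂ hlog₂ (Zc c) (hZc c)
    -- as finite sets
    set bx : Finset (Fin (r + 1) → 𝓞 K) := Fintype.piFinset fun _ => B with hbx
    set Bad₁ : Finset (Fin (r + 1) → 𝓞 K) := bx.filter fun c =>
      (y : ℝ) ^ (1 - κ₁) < nK K (fun 𝔭 => (fun i => Ideal.Quotient.mk 𝔭 (c i)) ∈ Z' 𝔭) y with hBad₁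
    set Bad₂ : (Fin (r + 1) → 𝓞 K) → Finset (𝓞 K) := fun c => B.filter fun t =>
      (y : ℝ) ^ (1 - κ₂) < nK K (fun 𝔭 => Ideal.Quotient.mk 𝔭 t ∈ Zc c 𝔭) y with hBad₂
    set S : Finset (Fin (r + 1 + 1) → 𝓞 K) := (Fintype.piFinset fun _ => B).filter fun c =>
      (y : ℝ) ^ (1 - κ) < nK K (fun 𝔭 => (fun i => Ideal.Quotient.mk 𝔭 (c i)) ∈ Z 𝔭) y with hS
    have hbxc : bx.card = B.card ^ (r + 1) := by
      rw [hbx, Fintype.card_piFinset, Finset.prod_const, Finset.card_univ, Fintype.card_fin]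
    have e₁ : {c : Fin (r + 1) → 𝓞 K | (∀ i, c i ∈ B) ∧
        (y : ℝ) ^ (1 - κ₁) < nK K (fun 𝔭 => (fun i => Ideal.Quotient.mk 𝔭 (c i)) ∈ Z' 𝔭) y} =
        (Bad₁ : Set (Fin (r + 1) → 𝓞 K)) := by
      ext c
      rw [hBad₁, Finset.mem_coe, Finset.mem_filter, hbx, Fintype.mem_piFinset]
      rfl
    have e₂ : ∀ c, (Bad₂ c).card ≤ {t : 𝓞 K | house (t : K) ≤ H ∧
        (y : ℝ) ^ (1 - κ₂) < nK K (fun 𝔭 => Ideal.Quotient.mk 𝔭 t ∈ Zc c 𝔭) y}.ncard := by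
      intro c
      rw [← Set.ncard_coe_finset]
      refine Set.ncard_le_ncard (fun t ht => ?_) ((finite_house K H).subset fun t ht => ht.1)
      rw [hBad₂, Finset.mem_coe, Finset.mem_filter] at ht
      exact ⟨hBH t ht.1, ht.2⟩
    have e₃ : {c : Fin (r + 1 + 1) → 𝓞 K | (∀ i, c i ∈ B) ∧
        (y : ℝ) ^ (1 - κ) < nK K (fun 𝔭 => (fun i => Ideal.Quotient.mk 𝔭 (c i)) ∈ Z 𝔭) y} =
        (S : Set (Fin (r + 1 + 1) → 𝓞 K)) := by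
      ext c
      rw [hS, Finset.mem_coe, Finset.mem_filter, Fintype.mem_piFinset]
      rfl
    rw [e₁, Set.ncard_coe_finset] at hbad₁
    replace hbad₂ : ∀ c, ((Bad₂ c).card : ℝ) ≤ (y : ℝ) ^ (1 - κ₂) := fun c =>
      (Nat.cast_le.2 (e₂ c)).trans (hbad₂ c)
    rw [e₃, Set.ncard_coe_finset]
    set U : Finset ((Fin (r + 1) → 𝓞 K) × 𝓞 K) := (bx ×ˢ B).filter fun x => x.2 ∈ Bad₂ x.1 with hU
    have hUc : (U.card : ℝ) ≤ (B.card : ℝ) ^ (r + 1) * (y : ℝ) ^ (1 - κ₂) := by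
      have e1 : U.card = ∑ c ∈ bx, (Bad₂ c).card := by
        rw [hU, Finset.card_filter, Finset.sum_product]
        refine Finset.sum_congr rfl fun c _ => ?_
        rw [← Finset.card_filter]
        congr 1
        ext t
        rw [Finset.mem_filter]
        exact ⟨fun h => h.2, fun h => ⟨(Finset.mem_filter.1 h).1, h⟩⟩
      rw [e1]
      push_cast
      calc ∑ c ∈ bx, ((Bad₂ c).card : ℝ) ≤ ∑ _c ∈ bx, (y : ℝ) ^ (1 - κ₂) := Finset.sum_le_sum fun c _ => hbad₂ c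
        _ = (B.card : ℝ) ^ (r + 1) * (y : ℝ) ^ (1 - κ₂) := by
            rw [Finset.sum_const, nsmul_eq_mul, hbxc]
            push_cast
            ring
    have hcard : S.card ≤ ((Bad₁ ×ˢ B) ∪ U).card := by
      refine Finset.card_le_card_of_injOn (fun c => (Fin.tail c, c 0)) ?_ ?_
      · intro c hc
        rw [Finset.mem_coe, hS, Finset.mem_filter, Fintype.mem_piFinset] at hc
        obtain ⟨hc1, hc2⟩ := hc
        have ht : Fin.tail c ∈ bx := by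
          rw [hbx, Fintype.mem_piFinset]
          exact fun i => hc1 i.succ
        rw [Finset.mem_coe, Finset.mem_union]
        by_cases hb1 : Fin.tail c ∈ Bad₁
        · exact Or.inl (Finset.mem_product.2 ⟨hb1, hc1 0⟩)
        · refine Or.inr (Finset.mem_filter.2 ⟨Finset.mem_product.2 ⟨ht, hc1 0⟩, ?_⟩)
          by_contra hb2
          have n1 : (nK K (fun 𝔭 => (fun i => Ideal.Quotient.mk 𝔭 (Fin.tail c i)) ∈ Z' 𝔭) y : ℝ) ≤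
              (y : ℝ) ^ (1 - κ₁) := by
            by_contra h
            exact hb1 (Finset.mem_filter.2 ⟨ht, not_le.1 h⟩)
          have n2 : (nK K (fun 𝔭 => Ideal.Quotient.mk 𝔭 (c 0) ∈ Zc (Fin.tail c) 𝔭) y : ℝ) ≤
              (y : ℝ) ^ (1 - κ₂) := by
            by_contra h
            exact hb2 (Finset.mem_filter.2 ⟨hc1 0, not_le.1 h⟩)
          have n3 : nK K (fun 𝔭 => (fun i => Ideal.Quotient.mk 𝔭 (c i)) ∈ Z 𝔭) y ≤
              nK K (fun 𝔭 => (fun i => Ideal.Quotient.mk 𝔭 (Fin.tail c i)) ∈ Z' 𝔭) y +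
                nK K (fun 𝔭 => Ideal.Quotient.mk 𝔭 (c 0) ∈ Zc (Fin.tail c) 𝔭) y := by
            refine (nK_mono _ _ y y le_rfl ?_).trans (nK_or _ _ y)
            intro 𝔭 _ _ hp
            by_cases hz : (fun i => Ideal.Quotient.mk 𝔭 (Fin.tail c i)) ∈ Z' 𝔭
            · exact Or.inl hz
            · refine Or.inr ⟨hz, ?_⟩
              have e := LS3_cons (fun x => Ideal.Quotient.mk 𝔭 x) c
              rw [e] at hp
              exact hp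
          have n4 : (nK K (fun 𝔭 => (fun i => Ideal.Quotient.mk 𝔭 (c i)) ∈ Z 𝔭) y : ℝ) ≤
              nK K (fun 𝔭 => (fun i => Ideal.Quotient.mk 𝔭 (Fin.tail c i)) ∈ Z' 𝔭) y +
                nK K (fun 𝔭 => Ideal.Quotient.mk 𝔭 (c 0) ∈ Zc (Fin.tail c) 𝔭) y := by exact_mod_cast n3
          linarith
      · intro a _ b _ hab
        have h1 : Fin.tail a = Fin.tail b := congrArg Prod.fst hab
        have h2 : a 0 = b 0 := congrArg Prod.snd hab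
        rw [← Fin.cons_self_tail a, ← Fin.cons_self_tail b, h1, h2]
    have hcard2 : (S.card : ℝ) ≤ (Bad₁.card : ℝ) * B.card + U.card := by
      have e1 := hcard.trans (Finset.card_union_le _ _)
      rw [Finset.card_product] at e1
      exact_mod_cast e1
    have hB0 : (0 : ℝ) ≤ (B.card : ℝ) := Nat.cast_nonneg _
    calc (S.card : ℝ) ≤ (Bad₁.card : ℝ) * B.card + U.card := hcard2
      _ ≤ ((y : ℝ) ^ (1 - κ₁) * (B.card : ℝ) ^ r) * B.card + (B.card : ℝ) ^ (r + 1) * (y : ℝ) ^ (1 - κ₂) :=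
          add_le_add (mul_le_mul_of_nonneg_right hbad₁ hB0) hUc
      _ = ((y : ℝ) ^ (1 - κ₁) + (y : ℝ) ^ (1 - κ₂)) * (B.card : ℝ) ^ (r + 1) := by ring
      _ ≤ (y : ℝ) ^ (1 - κ) * (B.card : ℝ) ^ (r + 1) := mul_le_mul_of_nonneg_right hsum (by positivity)

end MPadcOA
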