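import Mathlib

/-!
# All scales at the same time, with a weight
-/

set_option autoImplicit false

namespace MPadcOA

private theorem LS4_union {τ : Type} (B : ℕ → Set τ) (J : Finset ℕ) :
    (⋃ i ∈ J, B i).ncard ≤ ∑ i ∈ J, (B i).ncard := by
  classical
  induction J using Finset.induction_on with
  | empty => simp
  | insert a s ha ih =>
    rw [Finset.set_biUnion_insert, Finset.sum_insert ha]
    exact (Set.ncard_union_le _ _).trans (Nat.add_le_add_left ih _)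

private theorem LS4_const (κ : ℝ) (hκ : 0 < κ) : ∃ C : ℝ, 2 ≤ C ∧ ∀ x : ℝ, C ≤ x →
    2 ≤ x ^ (κ / 2) ∧ 2 * (Real.log x / Real.log 2 + 2) ≤ x ^ (κ / 2) := by
  have hl2 : 0 < Real.log 2 := Real.log_pos (by norm_num)
  set A : ℝ := 8 / (κ * Real.log 2) + 4 with hA
  have hA4 : 4 ≤ A := by
    have : 0 < 8 / (κ * Real.log 2) := by positivity
    linarith
  refine ⟨max 2 (A ^ (4 / κ)), le_max_left _ _, fun x hx => ?_⟩
  have hx2 : 2 ≤ x := (le_max_left _ _).trans hx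
  have hx0 : 0 < x := by linarith
  have hxA : A ≤ x ^ (κ / 4) := by
    have h1 : A ^ (4 / κ) ≤ x := (le_max_right _ _).trans hx
    have h2 : (A ^ (4 / κ)) ^ (κ / 4) ≤ x ^ (κ / 4) :=
      Real.rpow_le_rpow (by positivity) h1 (by positivity)
    rw [← Real.rpow_mul (by linarith), show 4 / κ * (κ / 4) = 1 by field_simp, Real.rpow_one] at h2
    exact h2
  have hsq : x ^ (κ / 2) = x ^ (κ / 4) * x ^ (κ / 4) := by
    rw [← Real.rpow_add hx0]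
    congr 1
    ring
  have hq0 : 0 < x ^ (κ / 4) := by positivity
  have hlog : Real.log x ≤ x ^ (κ / 4) / (κ / 4) := Real.log_le_rpow_div hx0.le (by positivity)
  refine ⟨?_, ?_⟩
  · rw [hsq]
    nlinarith
  · have h3 : 2 * (Real.log x / Real.log 2 + 2) ≤ A * x ^ (κ / 4) := by
      have h4 : Real.log x / Real.log 2 ≤ x ^ (κ / 4) / (κ / 4) / Real.log 2 :=
        div_le_div_of_nonneg_right hlog hl2.le
      have h5 : x ^ (κ / 4) / (κ / 4) / Real.log 2 = 4 / (κ * Real.log 2) * x ^ (κ / 4) := by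
        field_simp
      have h6 : A * x ^ (κ / 4) = 2 * (4 / (κ * Real.log 2) * x ^ (κ / 4)) + 4 * x ^ (κ / 4) := by
        rw [hA]
        ring
      rw [h6]
      rw [h5] at h4
      have h7 : 1 ≤ x ^ (κ / 4) := by linarith
      linarith
    rw [hsq]
    refine h3.trans (mul_le_mul_of_nonneg_right hxA hq0.le)

private theorem LS4_clog {y : ℕ} (hy : 2 ≤ y) :
    y ≤ 2 ^ Nat.clog 2 y ∧ 2 ^ Nat.clog 2 y ≤ 2 * y := by
  refine ⟨Nat.le_pow_clog (by norm_num) y, ?_⟩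
  have h1 : 2 ^ (Nat.clog 2 y).pred < y := Nat.pow_pred_clog_lt_self (by norm_num) (by omega)
  have h2 : 0 < Nat.clog 2 y := Nat.clog_pos (by norm_num) hy
  obtain ⟨k, hk⟩ : ∃ k, Nat.clog 2 y = k + 1 := ⟨Nat.clog 2 y - 1, by omega⟩
  rw [hk] at h1 ⊢
  rw [Nat.pred_succ] at h1
  rw [pow_succ]
  omega

/-- PROOF. If `z < Y` the set is empty (and the right side is `≥ 0`). Otherwise `z ≥ Y ≥ C`. For `t` in the set with `y` let `i = Nat.clog 2 y`, so `y ≤ 2 ^ i ≤ 2 y` (`Nat.le_pow_clog`, `Nat.pow_pred_clog_lt_self`; `y ≥ 2` if `C ≥ 2`), `N t y ≤ N t (2 ^ i)` and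
`(2 ^ i) ^ (1 - κ) ≤ (2 y) ^ (1 - κ) ≤ 2 y ^ (1 - κ) ≤ y ^ (1 - κ / 2)` if `y ^ (κ / 2) ≥ 2`, which holds if `C ≥ 2 ^ (2 / κ)`. So `t` is in the set `B i` of `h` for the scale `2 ^ i ≥ y ≥ Y`, and `i ≤ I = Nat.clog 2 z`. The sum of the bounds over `i ≤ I` is at most
`(I + 1) (2 ^ I) ^ (1 - κ) ≤ (I + 1) 2 z ^ (1 - κ)`, `I + 1 ≤ 2 + log z / log 2 ≤ z ^ (κ / 2) / 2` for `z ≥ C` large (`Real.log_le_rpow_div` or `isLittleO_log_rpow_atTop`). -/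
theorem all_scalesW (κ : ℝ) (hκ : 0 < κ) (hκ1 : κ ≤ 1) : ∃ C : ℝ, 1 ≤ C ∧ ∀ {τ : Type} (N : τ → ℕ → ℕ)
    (_ : ∀ t, Monotone (N t)) (S : Set τ) (_ : S.Finite) (W : ℝ) (_ : 0 ≤ W) (Y : ℝ) (_ : C ≤ Y)
    (_ : ∀ y : ℕ, Y ≤ y → ({t | t ∈ S ∧ (y : ℝ) ^ (1 - κ) < N t y}.ncard : ℝ) ≤ (y : ℝ) ^ (1 - κ) * W) (z : ℕ),
    ({t | t ∈ S ∧ ∃ y : ℕ, Y ≤ y ∧ y ≤ z ∧ (y : ℝ) ^ (1 - κ / 2) < N t y}.ncard : ℝ) ≤
      (z : ℝ) ^ (1 - κ / 2) * W := by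
  obtain ⟨C, hC2, hC⟩ := LS4_const κ hκ
  refine ⟨C, by linarith, ?_⟩
  intro τ N hN S hS W hW Y hY h z
  by_cases hzY : (z : ℝ) < Y
  · have h1 : {t | t ∈ S ∧ ∃ y : ℕ, Y ≤ y ∧ y ≤ z ∧ (y : ℝ) ^ (1 - κ / 2) < N t y} = ∅ := by
      rw [Set.eq_empty_iff_forall_notMem]
      rintro t ⟨_, y, hy1, hy2, _⟩
      have h2 : (y : ℝ) ≤ z := by exact_mod_cast hy2
      linarith
    rw [h1, Set.ncard_empty, Nat.cast_zero]
    positivity
  push Not at hzY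
  have hzC : C ≤ z := hY.trans hzY
  have hz2 : 2 ≤ z := by
    have : (2 : ℝ) ≤ z := hC2.trans hzC
    exact_mod_cast this
  have hz0 : (0 : ℝ) < z := by linarith
  set I : ℕ := Nat.clog 2 z with hI
  classical
  set J : Finset ℕ := (Finset.range (I + 1)).filter fun i => Y ≤ ((2 ^ i : ℕ) : ℝ) with hJ
  set B : ℕ → Set τ := fun i => {t | t ∈ S ∧ ((2 ^ i : ℕ) : ℝ) ^ (1 - κ) < N t (2 ^ i)} with hB
  have hk0 : 0 ≤ 1 - κ := by linarith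
  have hk1 : 1 - κ ≤ 1 := by linarith
  -- two times a number
  have htwo : ∀ a b : ℝ, 0 ≤ a → 0 ≤ b → b ≤ 2 * a → b ^ (1 - κ) ≤ 2 * a ^ (1 - κ) := by
    intro a b ha hb hab
    calc b ^ (1 - κ) ≤ (2 * a) ^ (1 - κ) := Real.rpow_le_rpow hb hab hk0
      _ = 2 ^ (1 - κ) * a ^ (1 - κ) := Real.mul_rpow (by norm_num) ha
      _ ≤ 2 ^ (1 : ℝ) * a ^ (1 - κ) :=
          mul_le_mul_of_nonneg_right (Real.rpow_le_rpow_of_exponent_le (by norm_num) hk1)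
            (Real.rpow_nonneg ha _)
      _ = 2 * a ^ (1 - κ) := by rw [Real.rpow_one]
  have hsub : {t | t ∈ S ∧ ∃ y : ℕ, Y ≤ y ∧ y ≤ z ∧ (y : ℝ) ^ (1 - κ / 2) < N t y} ⊆ ⋃ i ∈ J, B i := by
    rintro t ⟨htS, y, hy1, hy2, hy3⟩
    have hyC : C ≤ y := hY.trans hy1
    have hy2' : 2 ≤ y := by
      have : (2 : ℝ) ≤ y := hC2.trans hyC
      exact_mod_cast this
    have hy0 : (0 : ℝ) < y := by linarith
    obtain ⟨h1, h2⟩ := LS4_clog hy2'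
    have h1' : (y : ℝ) ≤ ((2 ^ Nat.clog 2 y : ℕ) : ℝ) := by exact_mod_cast h1
    have h2' : ((2 ^ Nat.clog 2 y : ℕ) : ℝ) ≤ 2 * y := by exact_mod_cast h2
    refine Set.mem_biUnion (x := Nat.clog 2 y) ?_ ⟨htS, ?_⟩
    · refine Finset.mem_coe.2 (Finset.mem_filter.2 ⟨Finset.mem_range.2 ?_, hy1.trans h1'⟩)
      have h3 : Nat.clog 2 y ≤ Nat.clog 2 z := Nat.clog_mono_right 2 hy2
      omega
    · have h3 : ((2 ^ Nat.clog 2 y : ℕ) : ℝ) ^ (1 - κ) ≤ 2 * (y : ℝ) ^ (1 - κ) :=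
        htwo _ _ hy0.le (Nat.cast_nonneg _) h2'
      have h4 : 2 * (y : ℝ) ^ (1 - κ) ≤ (y : ℝ) ^ (1 - κ / 2) := by
        have h5 : (y : ℝ) ^ (1 - κ / 2) = (y : ℝ) ^ (κ / 2) * (y : ℝ) ^ (1 - κ) := by
          rw [← Real.rpow_add hy0]
          congr 1
          ring
        rw [h5]
        exact mul_le_mul_of_nonneg_right (hC y hyC).1 (Real.rpow_nonneg hy0.le _)
      have h5 : (N t y : ℝ) ≤ N t (2 ^ Nat.clog 2 y) := by exact_mod_cast hN t h1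
      linarith
  have hSU : (⋃ i ∈ J, B i).Finite := by
    refine hS.subset ?_
    intro t ht
    rw [Set.mem_iUnion₂] at ht
    obtain ⟨i, _, hi⟩ := ht
    exact hi.1
  have h1 : ({t | t ∈ S ∧ ∃ y : ℕ, Y ≤ y ∧ y ≤ z ∧ (y : ℝ) ^ (1 - κ / 2) < N t y}.ncard : ℝ) ≤
      ∑ i ∈ J, ((B i).ncard : ℝ) := by
    have h2 := (Set.ncard_le_ncard hsub hSU).trans (LS4_union B J)
    exact_mod_cast h2
  obtain ⟨hI1, hI2⟩ := LS4_clog hz2
  have hI2' : ((2 ^ I : ℕ) : ℝ) ≤ 2 * z := by exact_mod_cast hI2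
  have h2 : ∀ i ∈ J, ((B i).ncard : ℝ) ≤ 2 * (z : ℝ) ^ (1 - κ) * W := by
    intro i hi
    obtain ⟨hi1, hi2⟩ := Finset.mem_filter.1 hi
    have h3 := h (2 ^ i) hi2
    refine h3.trans (mul_le_mul_of_nonneg_right (htwo _ _ hz0.le (Nat.cast_nonneg _) (le_trans ?_ hI2')) hW)
    have h4 : i ≤ I := by
      have := Finset.mem_range.1 hi1
      omega
    exact_mod_cast Nat.pow_le_pow_right (by norm_num) h4
  have h3 : ∑ i ∈ J, ((B i).ncard : ℝ) ≤ (J.card : ℝ) * (2 * (z : ℝ) ^ (1 - κ) * W) := by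
    rw [← nsmul_eq_mul]
    exact Finset.sum_le_card_nsmul _ _ _ h2
  have h4 : (J.card : ℝ) ≤ I + 1 := by
    have h5 : J.card ≤ I + 1 := by
      refine (Finset.card_filter_le _ _).trans ?_
      rw [Finset.card_range]
    exact_mod_cast h5
  have hl2 : 0 < Real.log 2 := Real.log_pos (by norm_num)
  have h5 : (I : ℝ) ≤ Real.log z / Real.log 2 + 1 := by
    have h6 : Real.log ((2 ^ I : ℕ) : ℝ) ≤ Real.log (2 * z) :=
      Real.log_le_log (by positivity) hI2'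
    push_cast at h6
    rw [Real.log_pow, Real.log_mul (by norm_num) hz0.ne'] at h6
    have h7 : (I : ℝ) * Real.log 2 ≤ (Real.log z / Real.log 2 + 1) * Real.log 2 := by
      have h8 : (Real.log z / Real.log 2 + 1) * Real.log 2 = Real.log z + Real.log 2 := by
        field_simp
      rw [h8]
      linarith
    exact le_of_mul_le_mul_right h7 hl2
  have h6 : 2 * ((I : ℝ) + 1) ≤ (z : ℝ) ^ (κ / 2) := by
    have := (hC z hzC).2
    linarith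
  have h7 : (z : ℝ) ^ (1 - κ / 2) = (z : ℝ) ^ (κ / 2) * (z : ℝ) ^ (1 - κ) := by
    rw [← Real.rpow_add hz0]
    congr 1
    ring
  have h8 : 0 ≤ (z : ℝ) ^ (1 - κ) := Real.rpow_nonneg hz0.le _
  rw [h7]
  calc _ ≤ ∑ i ∈ J, ((B i).ncard : ℝ) := h1
    _ ≤ (J.card : ℝ) * (2 * (z : ℝ) ^ (1 - κ) * W) := h3
    _ ≤ ((I : ℝ) + 1) * (2 * (z : ℝ) ^ (1 - κ) * W) := mul_le_mul_of_nonneg_right h4 (by positivity)
    _ = 2 * ((I : ℝ) + 1) * (z : ℝ) ^ (1 - κ) * W := by ring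
    _ ≤ (z : ℝ) ^ (κ / 2) * (z : ℝ) ^ (1 - κ) * W :=
        mul_le_mul_of_nonneg_right (mul_le_mul_of_nonneg_right h6 h8) hW

end MPadcOA
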