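import Pool.Agent.Lib.MP_adc574_ag_OAM.MDefs
import Pool.Agent.Lib.MP_adc574_ag_OAM.M8
import Pool.Agent.Lib.MP_adc574_ag_LS.L3
import Pool.Agent.Lib.MP_adc574_ag_LS.L4

/-!
# L5: the curves `y ^ 2 = f(x) * h(x)` over number fields by the larger sieve, from the theorem over finite fields
-/

set_option autoImplicit false

namespace MPadcOA

open Polynomial NumberField

/-- The bad classes. -/
private def L5_bad {E : Type} [Field E] (r : ℕ) (f : E[X]) : Set (Fin r → E) :=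
  {c | ¬ (Squarefree (f * monicOf c) ∧ HyperIsOrdinary (f * monicOf c))}

/-- The bad residue classes. -/
private noncomputable def L5_Z {K : Type} [Field K] [NumberField K] (r : ℕ) (f : (𝓞 K)[X]) (𝔭 : Ideal (𝓞 K)) :
    Set (Fin r → 𝓞 K ⧸ 𝔭) :=
  open Classical in
  if h : 𝔭.IsMaximal then
    @L5_bad (𝓞 K ⧸ 𝔭) (@Ideal.Quotient.field _ _ 𝔭 h) r (f.map (Ideal.Quotient.mk 𝔭)) else ∅

private theorem L5_neg (κ₀ : ℝ) (hκ₀ : 0 < κ₀) (m p N : ℕ) (hm : 1 ≤ m) (hp : 2 ≤ p) (hN : 1 ≤ N)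
    (hNp : N ≤ p ^ m) :
    (p : ℝ) ^ (-κ₀) ≤ (N : ℝ) ^ (-(min κ₀ 1 / m)) := by
  have hN0 : (0 : ℝ) < N := by exact_mod_cast hN
  have hp1 : (1 : ℝ) ≤ p := by exact_mod_cast (by omega : 1 ≤ p)
  have hp0 : (0 : ℝ) < p := by linarith
  have hm0 : (0 : ℝ) < m := by exact_mod_cast hm
  have hk0 : 0 < min κ₀ 1 := lt_min hκ₀ one_pos
  have h1 : (p : ℝ) ^ (-κ₀) ≤ (p : ℝ) ^ (-(min κ₀ 1)) :=
    Real.rpow_le_rpow_of_exponent_le hp1 (neg_le_neg (min_le_left _ _))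
  have h3 : (N : ℝ) ≤ (p : ℝ) ^ (m : ℝ) := by
    rw [Real.rpow_natCast]
    exact_mod_cast hNp
  have h4 : (N : ℝ) ^ (min κ₀ 1 / m) ≤ ((p : ℝ) ^ (m : ℝ)) ^ (min κ₀ 1 / m) :=
    Real.rpow_le_rpow hN0.le h3 (by positivity)
  rw [← Real.rpow_mul hp0.le] at h4
  have h5 : (m : ℝ) * (min κ₀ 1 / m) = min κ₀ 1 := by field_simp
  rw [h5] at h4
  refine h1.trans ?_
  rw [Real.rpow_neg hp0.le, Real.rpow_neg hN0.le]
  exact inv_anti₀ (Real.rpow_pos_of_pos hN0 _) h4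

private theorem L5_card {K : Type} [Field K] [NumberField K] (n r : ℕ) (A κ₀ : ℝ) (hκ₀ : 0 < κ₀)
    (h₀ : ∀ p : ℕ, p.Prime →
      ∀ (E : Type) [Field E] [Finite E] [CharP E p] (f : E[X]), Squarefree f → f.natDegree + r = n →
      (Nat.card {c : Fin r → E // ¬ (Squarefree (f * monicOf c) ∧ HyperIsOrdinary (f * monicOf c))} : ℝ) ≤
        A * (Nat.card E : ℝ) ^ r * (p : ℝ) ^ (-κ₀)) (f : (𝓞 K)[X]) (𝔭 : Ideal (𝓞 K)) (h𝔭 : 𝔭.IsMaximal)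
    (hf : ∀ (E : Type) [Field E] (φ : 𝓞 K →+* E), RingHom.ker φ = 𝔭 → (2 : E) ≠ 0 ∧ Squarefree (f.map φ) ∧
        (f.map φ).natDegree + r = n) :
    ((L5_Z r f 𝔭).ncard : ℝ) ≤
      max A 1 * (Ideal.absNorm 𝔭 : ℝ) ^ (-(min κ₀ 1 / Module.finrank ℚ K)) *
        (Ideal.absNorm 𝔭 : ℝ) ^ r := by
  classical
  obtain ⟨hfin, hcard, h2N⟩ := absNorm_facts 𝔭 h𝔭
  unfold L5_Z
  rw [dif_pos h𝔭]
  let _ : Field (𝓞 K ⧸ 𝔭) := @Ideal.Quotient.field _ _ 𝔭 h𝔭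
  obtain ⟨p, hp⟩ := CharP.exists (𝓞 K ⧸ 𝔭)
  have hpp : p.Prime := by
    rcases CharP.char_is_prime_or_zero (𝓞 K ⧸ 𝔭) p with h | h
    · exact h
    · subst h
      have h0 : CharZero (𝓞 K ⧸ 𝔭) := CharP.charP_to_charZero _
      exact absurd hfin (not_finite_iff_infinite.2 (CharZero.infinite _))
  have hpm : (p : 𝓞 K) ∈ 𝔭 := by
    rw [← Ideal.Quotient.eq_zero_iff_mem, map_natCast]
    exact CharP.cast_eq_zero _ p
  have hNp := absNorm_le_pow 𝔭 h𝔭 p hpp hpm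
  obtain ⟨_, h1, h2⟩ := hf (𝓞 K ⧸ 𝔭) (Ideal.Quotient.mk 𝔭) Ideal.mk_ker
  have h3 := h₀ p hpp (𝓞 K ⧸ 𝔭) (f.map (Ideal.Quotient.mk 𝔭)) h1 h2
  have h4 := L5_neg κ₀ hκ₀ (Module.finrank ℚ K) p (Ideal.absNorm 𝔭) Module.finrank_pos hpp.two_le
    (by omega) hNp
  have h6 : ((@L5_bad (𝓞 K ⧸ 𝔭) (@Ideal.Quotient.field _ _ 𝔭 h𝔭) r (f.map (Ideal.Quotient.mk 𝔭))).ncard : ℝ) ≤
      A * (Nat.card (𝓞 K ⧸ 𝔭) : ℝ) ^ r * (p : ℝ) ^ (-κ₀) := h3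
  refine h6.trans ?_
  rw [← hcard]
  have hp0 : (0 : ℝ) ≤ (p : ℝ) ^ (-κ₀) := Real.rpow_nonneg (Nat.cast_nonneg _) _
  calc A * (Ideal.absNorm 𝔭 : ℝ) ^ r * (p : ℝ) ^ (-κ₀) ≤
        max A 1 * (Ideal.absNorm 𝔭 : ℝ) ^ r * (p : ℝ) ^ (-κ₀) := by
        refine mul_le_mul_of_nonneg_right ?_ hp0
        exact mul_le_mul_of_nonneg_right (le_max_left _ _) (by positivity)
    _ ≤ max A 1 * (Ideal.absNorm 𝔭 : ℝ) ^ r *
          (Ideal.absNorm 𝔭 : ℝ) ^ (-(min κ₀ 1 / Module.finrank ℚ K)) :=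
        mul_le_mul_of_nonneg_left h4 (by
          have : (0 : ℝ) ≤ max A 1 := le_trans (by norm_num) (le_max_right _ _)
          positivity)
    _ = _ := by ring

private theorem L5_natDegree {R : Type*} [CommRing R] [Nontrivial R] (n : ℕ) (c : Fin n → R) :
    (monicOf c).Monic ∧ (monicOf c).natDegree = n := by
  have h : (∑ i : Fin n, C (c i) * X ^ (i : ℕ) : R[X]).degree < n := by
    refine (degree_sum_le _ _).trans_lt ?_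
    refine (Finset.sup_lt_iff (WithBot.bot_lt_coe n)).2 fun i _ => ?_
    refine (degree_C_mul_X_pow_le _ _).trans_lt ?_
    exact WithBot.coe_lt_coe.2 i.2
  unfold monicOf
  refine ⟨monic_X_pow_add h, ?_⟩
  rw [natDegree_add_eq_left_of_degree_lt (by rwa [degree_X_pow]), natDegree_X_pow]

private theorem L5_map {R S : Type*} [CommRing R] [CommRing S] (φ : R →+* S) (n : ℕ) (c : Fin n → R) :
    (monicOf c).map φ = monicOf fun i => φ (c i) := by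
  unfold monicOf
  simp [Polynomial.map_sum]

private theorem L5_ord {K : Type} [Field K] [NumberField K] (r s : ℕ) (f : (𝓞 K)[X]) (hfs : f.natDegree = s)
    (𝔭 : Ideal (𝓞 K)) (h𝔭 : 𝔭.IsMaximal)
    (hf : ∀ (E : Type) [Field E] (φ : 𝓞 K →+* E), RingHom.ker φ = 𝔭 → (2 : E) ≠ 0 ∧ Squarefree (f.map φ) ∧
        (f.map φ).natDegree = s) (c : Fin r → 𝓞 K)
    (hc : (fun i => Ideal.Quotient.mk 𝔭 (c i)) ∉ L5_Z r f 𝔭) : OrdinaryAtPrime (f * monicOf c) 𝔭 := by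
  classical
  unfold L5_Z at hc
  rw [dif_pos h𝔭] at hc
  let _ : Field (𝓞 K ⧸ 𝔭) := @Ideal.Quotient.field _ _ 𝔭 h𝔭
  have h1 := not_not.1 hc
  obtain ⟨h2, h3, h4⟩ := hf (𝓞 K ⧸ 𝔭) (Ideal.Quotient.mk 𝔭) Ideal.mk_ker
  have h5 : (f * monicOf c).map (Ideal.Quotient.mk 𝔭) =
      f.map (Ideal.Quotient.mk 𝔭) * monicOf (fun i => Ideal.Quotient.mk 𝔭 (c i)) := by
    rw [Polynomial.map_mul]
    congr 1
    exact L5_map (Ideal.Quotient.mk 𝔭) r c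
  obtain ⟨h6, h7⟩ := L5_natDegree r c
  obtain ⟨h8, h9⟩ := L5_natDegree r (fun i => Ideal.Quotient.mk 𝔭 (c i))
  refine ⟨𝓞 K ⧸ 𝔭, inferInstance, Ideal.Quotient.mk 𝔭, Ideal.Quotient.mk_surjective,
    Ideal.mk_ker, h2, ?_, ?_, ?_⟩
  · have hf0 : f ≠ 0 := by
      rintro rfl
      rw [Polynomial.map_zero] at h3
      exact h3.ne_zero rfl
    rw [h5, natDegree_mul h3.ne_zero h8.ne_zero, natDegree_mul hf0 h6.ne_zero, h7, h9, h4, hfs]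
  · rw [h5]
    exact h1.1
  · rw [h5]
    exact h1.2

private theorem L5_choice (κ A B C : ℝ) (hκ : 0 < κ) (hA : 0 ≤ A) : ∃ A' : ℝ, 1 ≤ A' ∧
    ∀ H : ℝ, 2 ≤ H → C ≤ (A' * Real.log H) ^ A' ∧ Real.log H ^ A ≤ (A' * Real.log H) ^ A' ∧
      ∀ y : ℝ, (A' * Real.log H) ^ A' ≤ y → 1 ≤ y ∧ 1 + B * Real.log H ≤ y ^ κ := by
  obtain ⟨A', hA'⟩ : ∃ A' : ℝ, A' = max (max (2 * C) 4) (max A (max (1 / κ) (B + 2))) := ⟨_, rfl⟩
  have h1 : 2 * C ≤ A' := by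
    rw [hA']
    exact (le_max_left _ _).trans (le_max_left _ _)
  have h2 : 4 ≤ A' := by
    rw [hA']
    exact (le_max_right _ _).trans (le_max_left _ _)
  have h3 : A ≤ A' := by
    rw [hA']
    exact (le_max_left _ _).trans (le_max_right _ _)
  have h4 : 1 / κ ≤ A' := by
    rw [hA']
    exact ((le_max_left _ _).trans (le_max_right _ _)).trans (le_max_right _ _)
  have h5 : B + 2 ≤ A' := by
    rw [hA']
    exact ((le_max_right _ _).trans (le_max_right _ _)).trans (le_max_right _ _)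
  have h0 : 0 < A' := by linarith
  refine ⟨A', by linarith, fun H hH => ?_⟩
  have hl2 : (1 : ℝ) / 2 ≤ Real.log 2 := by
    have := Real.log_two_gt_d9
    linarith
  have hL : (1 : ℝ) / 2 ≤ Real.log H := hl2.trans (Real.log_le_log (by norm_num) hH)
  have hL0 : 0 ≤ Real.log H := by linarith
  have hAL : 2 ≤ A' * Real.log H := by nlinarith
  have hAL1 : 1 ≤ A' * Real.log H := by linarith
  have hC : C ≤ (A' * Real.log H) ^ A' := by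
    have h6 : (2 : ℝ) ^ A' ≤ (A' * Real.log H) ^ A' := Real.rpow_le_rpow (by norm_num) hAL h0.le
    have h7 : A' / 2 ≤ (2 : ℝ) ^ A' := by
      rw [Real.rpow_def_of_pos (by norm_num)]
      have h8 := Real.add_one_le_exp (Real.log 2 * A')
      nlinarith
    linarith
  have hpow : ∀ e : ℝ, e ≤ A' → (A' * Real.log H) ^ e ≤ (A' * Real.log H) ^ A' := fun e he =>
    Real.rpow_le_rpow_of_exponent_le hAL1 he
  refine ⟨hC, ?_, fun y hy => ?_⟩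
  · refine le_trans (Real.rpow_le_rpow hL0 ?_ hA) (hpow A h3)
    nlinarith
  · have hY1 : 1 ≤ (A' * Real.log H) ^ A' := Real.one_le_rpow hAL1 h0.le
    have hy1 : 1 ≤ y := hY1.trans hy
    refine ⟨hy1, ?_⟩
    have h6 : ((A' * Real.log H) ^ A') ^ κ ≤ y ^ κ := Real.rpow_le_rpow (by linarith) hy hκ.le
    rw [← Real.rpow_mul (by linarith)] at h6
    have h7 : 1 ≤ A' * κ := by
      rw [div_le_iff₀ hκ] at h4
      exact h4
    have h8 : A' * Real.log H ≤ (A' * Real.log H) ^ (A' * κ) := by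
      calc A' * Real.log H = (A' * Real.log H) ^ (1 : ℝ) := (Real.rpow_one _).symm
        _ ≤ _ := Real.rpow_le_rpow_of_exponent_le hAL1 h7
    have h9 : 1 + B * Real.log H ≤ A' * Real.log H := by
      have h10 : (B + 2) * Real.log H ≤ A' * Real.log H := mul_le_mul_of_nonneg_right h5 hL0
      linarith
    linarith

/-- The theorem over the number fields of degree `m`, in terms of the coefficients. -/
theorem ls_coeff (n r : ℕ) (hr : 0 < r) (hrn : r ≤ n) (hA : FewMix n r) (m : ℕ) : ∃ A κ : ℝ, 1 ≤ A ∧ 0 < κ ∧ κ < 1 ∧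
    ∀ (K : Type) [Field K] [NumberField K], Module.finrank ℚ K = m → ∀ (H : ℝ), 2 ≤ H →
      ∀ f : (𝓞 K)[X], f.natDegree + r = n → Squarefree (f.map (algebraMap (𝓞 K) K)) →
        (∀ i, house (f.coeff i : K) ≤ H) →
        ∀ (T : Finset (𝓞 K)), (∀ t ∈ T, house (t : K) ≤ H) → ∀ z : ℕ,
          ({c : Fin r → 𝓞 K | (∀ i, c i ∈ T) ∧ ∃ y : ℕ, (A * Real.log H) ^ A ≤ y ∧ y ≤ z ∧
              (y : ℝ) ^ (1 - κ) < nK K (fun 𝔭 => ¬ OrdinaryAtPrime (f * monicOf c) 𝔭) y}.ncard : ℝ) ≤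
            (z : ℝ) ^ (1 - κ) * (T.card : ℝ) ^ (r - 1) := by
  classical
  obtain ⟨A₀, κ₀, hκ₀, h₀⟩ := hA
  by_cases hm : 1 ≤ m
  swap
  · refine ⟨1, 1 / 2, le_rfl, by norm_num, by norm_num, fun K _ _ hKm => ?_⟩
    have := Module.finrank_pos (R := ℚ) (M := K)
    omega
  obtain ⟨r', rfl⟩ : ∃ r', r = r' + 1 := ⟨r - 1, by omega⟩
  have hm0 : (0 : ℝ) < m := by exact_mod_cast hm
  have hm1 : (1 : ℝ) ≤ m := by exact_mod_cast hm
  have hk0 : 0 < min κ₀ 1 := lt_min hκ₀ one_pos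
  have hk1 : min κ₀ 1 / m ≤ 1 := by
    rw [div_le_one hm0]
    exact (min_le_right _ _).trans hm1
  obtain ⟨B, hB0, hB⟩ := discr_primes (n - (r' + 1)) m
  obtain ⟨A₁, κ, hA₁, hκ, hκ2, hS⟩ := ls_abs m r' (max A₀ 1) (min κ₀ 1 / m) (by positivity) hk1
  obtain ⟨C₄, hC₄, hW⟩ := all_scalesW (κ / 2) (by positivity) (by linarith)
  obtain ⟨A, hA1, hch⟩ := L5_choice (κ / 2) A₁ B (max A₁ C₄) (by positivity) (by linarith)
  refine ⟨A, κ / 2 / 2, hA1, by positivity, by linarith, fun K _ _ hKm H hH f hfn hfs hco T hT z => ?_⟩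
  obtain ⟨hc1, hc2, hc3⟩ := hch H hH
  have hfd : f.natDegree = n - (r' + 1) := by omega
  obtain ⟨D, hD0, hDB, hDf⟩ := hB K hKm H hH f hfd hfs hco
  have hker : ∀ 𝔭 : Ideal (𝓞 K), D ∉ 𝔭 → ∀ (E : Type) [Field E] (φ : 𝓞 K →+* E), RingHom.ker φ = 𝔭 →
      (2 : E) ≠ 0 ∧ Squarefree (f.map φ) ∧ (f.map φ).natDegree = n - (r' + 1) := by
    intro 𝔭 hD𝔭 E _ φ hφ
    refine hDf E φ fun h => hD𝔭 ?_
    rw [← hφ]
    exact h
  have hTr : ((r' + 1 : ℕ) - 1 : ℕ) = r' := by omega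
  rw [hTr]
  have hSfin : {c : Fin (r' + 1) → 𝓞 K | ∀ i, c i ∈ T}.Finite :=
    Set.Finite.pi' (fun _ : Fin (r' + 1) => T.finite_toSet)
  refine hW (fun (c : Fin (r' + 1) → 𝓞 K) (y : ℕ) => nK K (fun 𝔭 => ¬ OrdinaryAtPrime (f * monicOf c) 𝔭) y)
    (fun c y y' hy => nK_mono _ _ y y' hy fun 𝔭 _ _ h => h) {c | ∀ i, c i ∈ T} hSfin ((T.card : ℝ) ^ r')
    (pow_nonneg (Nat.cast_nonneg _) _) ((A * Real.log H) ^ A) ((le_max_right _ _).trans hc1) (fun y hy => ?_) z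
  obtain ⟨hy1, hy2⟩ := hc3 y hy
  have hy0 : (0 : ℝ) < y := by linarith
  have h1 := hS K hKm H y hH (((le_max_left _ _).trans hc1).trans hy) (hc2.trans hy) T hT
    (fun 𝔭 => if D ∈ 𝔭 then ∅ else L5_Z (r' + 1) f 𝔭) (fun 𝔭 h𝔭 hNy => by
      obtain ⟨hfin, hcard, h2N⟩ := absNorm_facts 𝔭 h𝔭
      have hN0 : (0 : ℝ) < Ideal.absNorm 𝔭 := by exact_mod_cast (by omega : 0 < Ideal.absNorm 𝔭)
      have hA00 : (0 : ℝ) ≤ max A₀ 1 := le_trans (by norm_num) (le_max_right _ _)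
      by_cases hD : D ∈ 𝔭
      · rw [if_pos hD, Set.ncard_empty, Nat.cast_zero]
        positivity
      · rw [if_neg hD]
        have h2 := L5_card n (r' + 1) A₀ κ₀ hκ₀ h₀ f 𝔭 h𝔭 (fun E _ φ hφ => by
          obtain ⟨a1, a2, a3⟩ := hker 𝔭 hD E φ hφ
          exact ⟨a1, a2, by omega⟩)
        rw [hKm] at h2
        refine h2.trans (le_of_eq ?_)
        rw [mul_assoc, ← Real.rpow_natCast (Ideal.absNorm 𝔭 : ℝ) (r' + 1), ← Real.rpow_add hN0]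
        congr 2
        push_cast
        ring)
  have h3 : (y : ℝ) ^ (1 - κ) ≤ (y : ℝ) ^ (1 - κ / 2) := Real.rpow_le_rpow_of_exponent_le hy1 (by linarith)
  have h4 : (y : ℝ) ^ (1 - κ) + B * Real.log H ≤ (y : ℝ) ^ (1 - κ / 2) := by
    have h5 : (y : ℝ) ^ (1 - κ / 2) = (y : ℝ) ^ (κ / 2) * (y : ℝ) ^ (1 - κ) := by
      rw [← Real.rpow_add hy0]
      congr 1
      ring
    have h6 : 1 ≤ (y : ℝ) ^ (1 - κ) := Real.one_le_rpow hy1 (by linarith)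
    have h7 : 0 ≤ B * Real.log H := mul_nonneg hB0 (Real.log_nonneg (by linarith))
    have h8 : (1 + B * Real.log H) * (y : ℝ) ^ (1 - κ) ≤ (y : ℝ) ^ (κ / 2) * (y : ℝ) ^ (1 - κ) :=
      mul_le_mul_of_nonneg_right hy2 (by linarith)
    rw [h5]
    nlinarith
  have hsub : {c : Fin (r' + 1) → 𝓞 K | c ∈ {c : Fin (r' + 1) → 𝓞 K | ∀ i, c i ∈ T} ∧
        (y : ℝ) ^ (1 - κ / 2) < nK K (fun 𝔭 => ¬ OrdinaryAtPrime (f * monicOf c) 𝔭) y} ⊆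
      {c : Fin (r' + 1) → 𝓞 K | (∀ i, c i ∈ T) ∧ (y : ℝ) ^ (1 - κ) <
        nK K (fun 𝔭 => (fun i => Ideal.Quotient.mk 𝔭 (c i)) ∈ (if D ∈ 𝔭 then ∅ else L5_Z (r' + 1) f 𝔭)) y} := by
    rintro c ⟨hcT, hc⟩
    refine ⟨hcT, ?_⟩
    have h5 : nK K (fun 𝔭 => ¬ OrdinaryAtPrime (f * monicOf c) 𝔭) y ≤
        nK K (fun 𝔭 => D ∈ 𝔭 ∨
          (fun i => Ideal.Quotient.mk 𝔭 (c i)) ∈ (if D ∈ 𝔭 then ∅ else L5_Z (r' + 1) f 𝔭)) y := by
      refine nK_mono _ _ y y le_rfl fun 𝔭 h𝔭 _ hno => ?_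
      by_cases hD : D ∈ 𝔭
      · exact Or.inl hD
      · refine Or.inr ?_
        rw [if_neg hD]
        by_contra hcon
        exact hno (L5_ord (r' + 1) (n - (r' + 1)) f hfd 𝔭 h𝔭 (hker 𝔭 hD) c hcon)
    have h6 := h5.trans (nK_or _ _ y)
    have h7 : (nK K (fun 𝔭 => ¬ OrdinaryAtPrime (f * monicOf c) 𝔭) y : ℝ) ≤
        nK K (fun 𝔭 => D ∈ 𝔭) y +
        nK K (fun 𝔭 => (fun i => Ideal.Quotient.mk 𝔭 (c i)) ∈ (if D ∈ 𝔭 then ∅ else L5_Z (r' + 1) f 𝔭)) y := by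
      exact_mod_cast h6
    have h8 := hDB y
    linarith
  have hfin2 : {c : Fin (r' + 1) → 𝓞 K | (∀ i, c i ∈ T) ∧ (y : ℝ) ^ (1 - κ) <
        nK K (fun 𝔭 => (fun i => Ideal.Quotient.mk 𝔭 (c i)) ∈
          (if D ∈ 𝔭 then ∅ else L5_Z (r' + 1) f 𝔭)) y}.Finite := hSfin.subset fun c hc => hc.1
  have h9 := Set.ncard_le_ncard hsub hfin2
  have h10 : (({c : Fin (r' + 1) → 𝓞 K | c ∈ {c : Fin (r' + 1) → 𝓞 K | ∀ i, c i ∈ T} ∧
        (y : ℝ) ^ (1 - κ / 2) < nK K (fun 𝔭 => ¬ OrdinaryAtPrime (f * monicOf c) 𝔭) y}.ncard : ℕ) : ℝ) ≤ _ :=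
    Nat.cast_le.2 h9
  exact h10.trans (h1.trans (mul_le_mul_of_nonneg_right h3 (pow_nonneg (Nat.cast_nonneg _) _)))

/-- The theorem over the number fields of degree `m`, in terms of the polynomials. -/
theorem ls_monic (n r : ℕ) (hr : 0 < r) (hrn : r ≤ n) (hA : FewMix n r) (m : ℕ) : ∃ A κ : ℝ, 1 ≤ A ∧ 0 < κ ∧ κ < 1 ∧
    ∀ (K : Type) [Field K] [NumberField K], Module.finrank ℚ K = m → ∀ (H : ℝ), 2 ≤ H →
      ∀ f : (𝓞 K)[X], f.natDegree + r = n → Squarefree (f.map (algebraMap (𝓞 K) K)) →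
        (∀ i, house (f.coeff i : K) ≤ H) →
        ∀ (T : Finset (𝓞 K)), (∀ t ∈ T, house (t : K) ≤ H) → ∀ z : ℕ,
          {h : (𝓞 K)[X] | h.Monic ∧ h.natDegree = r ∧ (∀ i < r, h.coeff i ∈ T) ∧
              ∃ y : ℕ, (A * Real.log H) ^ A ≤ y ∧ y ≤ z ∧
              (y : ℝ) ^ (1 - κ) < nK K (fun 𝔭 => ¬ OrdinaryAtPrime (f * h) 𝔭) y}.Finite ∧
          ({h : (𝓞 K)[X] | h.Monic ∧ h.natDegree = r ∧ (∀ i < r, h.coeff i ∈ T) ∧
              ∃ y : ℕ, (A * Real.log H) ^ A ≤ y ∧ y ≤ z ∧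
              (y : ℝ) ^ (1 - κ) < nK K (fun 𝔭 => ¬ OrdinaryAtPrime (f * h) 𝔭) y}.ncard : ℝ) ≤
            (z : ℝ) ^ (1 - κ) * (T.card : ℝ) ^ (r - 1) := by
  classical
  obtain ⟨A, κ, hA1, hκ, hκ1, h0⟩ := ls_coeff n r hr hrn hA m
  refine ⟨A, κ, hA1, hκ, hκ1, fun K _ _ hKm H hH f hfn hfs hco T hT z => ?_⟩
  have h1 := h0 K hKm H hH f hfn hfs hco T hT z
  have hfin : {c : Fin r → 𝓞 K | (∀ i, c i ∈ T) ∧ ∃ y : ℕ, (A * Real.log H) ^ A ≤ y ∧ y ≤ z ∧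
      (y : ℝ) ^ (1 - κ) < nK K (fun 𝔭 => ¬ OrdinaryAtPrime (f * monicOf c) 𝔭) y}.Finite := by
    refine (Set.Finite.pi' (fun _ : Fin r => T.finite_toSet)).subset fun c hc => ?_
    exact fun i => hc.1 i
  have h2 : {h : (𝓞 K)[X] | h.Monic ∧ h.natDegree = r ∧ (∀ i < r, h.coeff i ∈ T) ∧
        ∃ y : ℕ, (A * Real.log H) ^ A ≤ y ∧ y ≤ z ∧
        (y : ℝ) ^ (1 - κ) < nK K (fun 𝔭 => ¬ OrdinaryAtPrime (f * h) 𝔭) y} ⊆
      (fun c => monicOf c) '' {c : Fin r → 𝓞 K | (∀ i, c i ∈ T) ∧ ∃ y : ℕ, (A * Real.log H) ^ A ≤ y ∧ y ≤ z ∧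
        (y : ℝ) ^ (1 - κ) < nK K (fun 𝔭 => ¬ OrdinaryAtPrime (f * monicOf c) 𝔭) y} := by
    rintro h ⟨hm, hd, hb, hy⟩
    have h3 : monicOf (fun i : Fin r => h.coeff i) = h := by
      have h4 := hm.as_sum
      rw [hd, ← Fin.sum_univ_eq_sum_range (fun i => C (h.coeff i) * X ^ i)] at h4
      unfold monicOf
      exact h4.symm
    refine ⟨fun i => h.coeff i, ⟨fun i => hb i i.2, ?_⟩, h3⟩
    rw [h3]
    exact hy
  refine ⟨(hfin.image _).subset h2, le_trans ?_ h1⟩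
  exact_mod_cast (Set.ncard_le_ncard h2 (hfin.image _)).trans (Set.ncard_image_le hfin)

end MPadcOA
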