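import Pool.Agent.Lib.MP_adc574_ag_LS.L5
import Pool.Agent.Lib.MP_adc574_ag_OAM.M10

/-!
# L6: the final theorem over number fields by the larger sieve
-/

set_option autoImplicit false

namespace MPadcOA

open Polynomial NumberField

theorem numberField_sieve (n r m : ℕ) (hn : 3 ≤ n) (hr : 0 < r) (hrn : r ≤ n) : ∃ A κ : ℝ, 1 ≤ A ∧ 0 < κ ∧ κ < 1 ∧
    ∀ (K : Type) [Field K] [NumberField K], Module.finrank ℚ K = m → ∀ (H : ℝ), 2 ≤ H →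
      ∀ f : (𝓞 K)[X], f.natDegree + r = n → Squarefree (f.map (algebraMap (𝓞 K) K)) →
        (∀ i, house (f.coeff i : K) ≤ H) →
        ∀ (T : Finset (𝓞 K)), (∀ t ∈ T, house (t : K) ≤ H) → ∀ z : ℕ,
          {h : (𝓞 K)[X] | h.Monic ∧ h.natDegree = r ∧ (∀ i < r, h.coeff i ∈ T) ∧
              ∃ y : ℕ, (A * Real.log H) ^ A ≤ y ∧ y ≤ z ∧
              (y : ℝ) ^ (1 - κ) < nK K (fun 𝔭 => ¬ OrdinaryAtPrime (f * h) 𝔭) y}.Finite ∧
          ({h : (𝓞 K)[X] | h.Monic ∧ h.natDegree = r ∧ (∀ i < r, h.coeff i ∈ T) ∧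
              ∃ y : ℕ, (A * Real.log H) ^ A ≤ y ∧ y ≤ z ∧
              (y : ℝ) ^ (1 - κ) < nK K (fun 𝔭 => ¬ OrdinaryAtPrime (f * h) 𝔭) y}.ncard : ℝ) ≤
            (z : ℝ) ^ (1 - κ) * (T.card : ℝ) ^ (r - 1) :=
  ls_monic n r hr hrn (fewMix n r hn hr hrn) m

end MPadcOA
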